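import Pool.Agent.Lib.MP_6b8fc7_nt.CE.Final

set_option autoImplicit false

/-!
Cases in which there is no local obstruction.
-/

namespace Pool.Agent.Lib.MP_6b8fc7_nt.CE

open Finset

variable {K L : ℕ}

lemma Loc_of_dvd (d : ℕ) (h : Fin K → ℕ) (h' : Fin L → ℕ)
    (hh : ∀ p : ℕ, p.Prime → p ≤ 2 * K + L + 1 + d → (∀ i, p ∣ h i) ∧ ∀ j, p ∣ h' j)
    (n : ℕ) (hn : Nat.Coprime n (2 * d)) (hn3 : n % 3 ≠ 2 ∨ 3 ∣ d) : Loc d h h' n := by
  intro p hp hle
  have hpp : Prime (p : ℤ) := Nat.prime_iff_prime_int.1 hp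
  have hcop : p ∣ 2 * d → ∀ x : ℤ, ¬ (p : ℤ) ∣ (n : ℤ) - 2 * (d * x) ^ 2 := by
    intro hpd x hd
    have h1 : (p : ℤ) ∣ 2 * (d : ℤ) := by exact_mod_cast hpd
    have h2 : (p : ℤ) ∣ 2 * ((d : ℤ) * x) ^ 2 := by
      have h2 : 2 * ((d : ℤ) * x) ^ 2 = 2 * (d : ℤ) * (d * x ^ 2) := by ring
      rw [h2]
      exact h1.mul_right _
    have h3 := dvd_add hd h2
    rw [sub_add_cancel] at h3
    have h4 : p ∣ n := Int.natCast_dvd_natCast.1 h3
    exact hp.one_lt.ne' (Nat.eq_one_of_dvd_coprimes hn h4 hpd)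
  obtain ⟨x, hx1, hx2⟩ : ∃ x : ℤ, ¬ (p : ℤ) ∣ x ∧ ¬ (p : ℤ) ∣ (n : ℤ) - 2 * (d * x) ^ 2 := by
    have hone : ¬ (p : ℤ) ∣ 1 := fun hd => by
      have := Int.le_of_dvd (by norm_num) hd
      have := hp.two_le
      omega
    by_cases hpd : p ∣ 2 * d
    · exact ⟨1, hone, hcop hpd 1⟩
    · have hp2 : p ≠ 2 := by
        rintro rfl
        exact hpd (dvd_mul_right 2 d)
      have hpd' : ¬ p ∣ d := fun h => hpd (h.mul_left 2)
      by_cases h3 : p = 3
      · subst h3
        refine ⟨1, hone, ?_⟩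
        have hn' : n % 3 ≠ 2 := by
          rcases hn3 with h | h
          · exact h
          · exact absurd h hpd'
        have hd3 : (d : ℤ) % 3 = 1 ∨ (d : ℤ) % 3 = 2 := by omega
        intro hd
        have e : (n : ℤ) - 2 * (d * 1) ^ 2 = n - 2 * (d * d) := by ring
        rw [e] at hd
        have hdd : ((d : ℤ) * d) % 3 = 1 := by
          rcases hd3 with h | h <;> rw [Int.mul_emod, h] <;> norm_num
        have hd' : (3 : ℤ) ∣ n - 2 * ((d : ℤ) * d) := by exact_mod_cast hd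
        generalize (d : ℤ) * d = e at hdd hd'
        omega
      · by_cases hc : (p : ℤ) ∣ n - 2 * (d * 1) ^ 2
        · refine ⟨2, ?_, fun hd => ?_⟩
          · intro hd
            have := Int.le_of_dvd (by norm_num) hd
            have := hp.two_le
            omega
          · have h7 := dvd_sub hc hd
            have e : ((n : ℤ) - 2 * (d * 1) ^ 2) - (n - 2 * (d * 2) ^ 2) =
                2 * (3 * (d * d)) := by ring
            rw [e] at h7
            rcases hpp.dvd_or_dvd h7 with h | h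
            · have h' : p ∣ 2 := by exact_mod_cast h
              exact hp2 ((Nat.prime_dvd_prime_iff_eq hp Nat.prime_two).1 h')
            · rcases hpp.dvd_or_dvd h with h | h
              · have h' : p ∣ 3 := by exact_mod_cast h
                exact h3 ((Nat.prime_dvd_prime_iff_eq hp Nat.prime_three).1 h')
              · rcases hpp.dvd_or_dvd h with h | h <;>
                  exact hpd' (Int.natCast_dvd_natCast.1 h)
        · exact ⟨1, hone, hc⟩
  refine ⟨x, fun hd => ?_⟩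
  unfold Q at hd
  rcases hpp.dvd_or_dvd hd with hd | hd
  · rcases hpp.dvd_or_dvd hd with hd | hd
    · exact hx1 hd
    · obtain ⟨i, _, hi⟩ := (Prime.dvd_finsetProd_iff hpp _).1 hd
      have h1 : (p : ℤ) ∣ (h i : ℤ) := Int.natCast_dvd_natCast.2 ((hh p hp hle).1 i)
      have h2 := dvd_sub hi h1
      have e : (n : ℤ) + h i - 2 * (d * x) ^ 2 - h i = n - 2 * (d * x) ^ 2 := by ring
      rw [e] at h2
      exact hx2 h2
  · obtain ⟨j, _, hj⟩ := (Prime.dvd_finsetProd_iff hpp _).1 hd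
    have h1 : (p : ℤ) ∣ (h' j : ℤ) := Int.natCast_dvd_natCast.2 ((hh p hp hle).2 j)
    have h2 := dvd_sub hj h1
    have e : x + (h' j : ℤ) - h' j = x := by ring
    rw [e] at h2
    exact hx1 h2

end Pool.Agent.Lib.MP_6b8fc7_nt.CE
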