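import Pool.Agent.Lib.MP_6b8fc7_nt.SR.Fam

set_option autoImplicit false

/-!
The family `x`, `M (x + y) + r + h_i - 2 (d x) ^ 2`, `x + h'_j`.
-/

namespace Pool.Agent.Lib.MP_6b8fc7_nt.CE

open Finset Polynomial Filter
open ArithmeticFunction (cardFactors)
open Pool.Agent.Lib.MP_0da313_nt (Admissible lineRestrict val singV nroots eval_lineRestrict
  card_roots_mod_le card_roots_mod_lt)

variable {K L : ℕ}

/-- the product of the forms -/
def Q (d : ℕ) (h : Fin K → ℕ) (h' : Fin L → ℕ) (n t : ℤ) : ℤ :=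
  t * (∏ i, (n + h i - 2 * (d * t) ^ 2)) * ∏ j, (t + h' j)

/-- the product polynomial -/
noncomputable def G (d : ℕ) (h : Fin K → ℕ) (h' : Fin L → ℕ) (n : ℤ) : ℤ[X] :=
  X * (∏ i, (C (n + (h i : ℤ)) - C (2 * (d : ℤ) ^ 2) * X ^ 2)) * ∏ j, (X + C (h' j : ℤ))

lemma ev_G (d : ℕ) (h : Fin K → ℕ) (h' : Fin L → ℕ) (n x : ℤ) :
    (G d h h' n).eval x = Q d h h' n x := by
  unfold G Q
  simp only [eval_mul, eval_X, eval_sub, eval_C, eval_pow, eval_add, eval_prod, mul_pow,
    mul_assoc]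

lemma deg_G (d : ℕ) (h : Fin K → ℕ) (h' : Fin L → ℕ) (n : ℤ) :
    (G d h h' n).natDegree ≤ 2 * K + L + 1 := by
  unfold G
  have h1 : (X : ℤ[X]).natDegree ≤ 1 := by compute_degree
  have h2 : (∏ i : Fin K, (C (n + (h i : ℤ)) - C (2 * (d : ℤ) ^ 2) * X ^ 2) : ℤ[X]).natDegree ≤ 2 * K := by
    refine (natDegree_prod_le _ _).trans ?_
    calc ∑ i : Fin K, (C (n + (h i : ℤ)) - C (2 * (d : ℤ) ^ 2) * X ^ 2 : ℤ[X]).natDegree ≤
          ∑ _i : Fin K, 2 := Finset.sum_le_sum fun i _ => by compute_degree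
      _ = 2 * K := by simp [mul_comm]
  have h3 : (∏ j : Fin L, (X + C (h' j : ℤ)) : ℤ[X]).natDegree ≤ L := by
    refine (natDegree_prod_le _ _).trans ?_
    calc ∑ j : Fin L, (X + C (h' j : ℤ) : ℤ[X]).natDegree ≤
          ∑ _j : Fin L, 1 := Finset.sum_le_sum fun j _ => by compute_degree
      _ = L := by simp
  refine natDegree_mul_le.trans ?_
  have h4 := (natDegree_mul_le (p := (X : ℤ[X]))
    (q := ∏ i : Fin K, (C (n + (h i : ℤ)) - C (2 * (d : ℤ) ^ 2) * X ^ 2)))
  omega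

/-- no fixed divisor `p > 2 K + L + 3 + d` -/
lemma big_ok {d : ℕ} (hd1 : 1 ≤ d) (h : Fin K → ℕ) (h' : Fin L → ℕ) (n : ℤ) (p : ℕ) (hp : p.Prime)
    (hpK : 2 * K + L + 1 + d < p) : ∃ x : ℤ, ¬ (p : ℤ) ∣ Q d h h' n x := by
  have : Fact p.Prime := ⟨hp⟩
  by_contra hcon
  push Not at hcon
  set F : (ZMod p)[X] := X *
    (∏ i : Fin K, (C ((n + h i : ℤ) : ZMod p) - C (2 * (d : ZMod p) ^ 2) * X ^ 2)) *
    ∏ j : Fin L, (X + C ((h' j : ℤ) : ZMod p)) with hF
  have h20 : (2 * (d : ZMod p) ^ 2) ≠ 0 := by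
    have h2 : (2 : ZMod p) ≠ 0 := by
      intro h0
      have : ((2 : ℕ) : ZMod p) = 0 := by exact_mod_cast h0
      rw [ZMod.natCast_eq_zero_iff] at this
      have := Nat.le_of_dvd (by norm_num) this
      omega
    have h3 : (d : ZMod p) ≠ 0 := by
      intro h0
      rw [ZMod.natCast_eq_zero_iff] at h0
      have := Nat.le_of_dvd (by omega) h0
      omega
    exact mul_ne_zero h2 (pow_ne_zero 2 h3)
  have hne : ∀ c : ZMod p, (C c - C (2 * (d : ZMod p) ^ 2) * X ^ 2 : (ZMod p)[X]) ≠ 0 := by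
    intro c h0
    have := congrArg (fun q : (ZMod p)[X] => q.coeff 2) h0
    simp only [coeff_sub, coeff_C_mul, coeff_X_pow, coeff_C, coeff_zero] at this
    rw [if_neg (by norm_num), if_pos trivial, mul_one, zero_sub, neg_eq_zero] at this
    exact h20 this
  have hF0 : F ≠ 0 := by
    refine mul_ne_zero (mul_ne_zero X_ne_zero ?_) ?_
    · exact Finset.prod_ne_zero_iff.2 fun i _ => hne _
    · exact Finset.prod_ne_zero_iff.2 fun j _ => X_add_C_ne_zero _
  have hdeg : F.natDegree ≤ 2 * K + L + 1 := by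
    have h1 : (X : (ZMod p)[X]).natDegree ≤ 1 := by
      compute_degree
    have h2 : (∏ i : Fin K, (C ((n + h i : ℤ) : ZMod p) - C (2 * (d : ZMod p) ^ 2) * X ^ 2) : (ZMod p)[X]).natDegree ≤
        2 * K := by
      refine (natDegree_prod_le _ _).trans ?_
      calc ∑ i : Fin K, (C ((n + h i : ℤ) : ZMod p) - C (2 * (d : ZMod p) ^ 2) * X ^ 2 : (ZMod p)[X]).natDegree ≤
            ∑ _i : Fin K, 2 := Finset.sum_le_sum fun i _ => by compute_degree
        _ = 2 * K := by simp [mul_comm]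
    have h3 : (∏ j : Fin L, (X + C ((h' j : ℤ) : ZMod p)) : (ZMod p)[X]).natDegree ≤ L := by
      refine (natDegree_prod_le _ _).trans ?_
      calc ∑ j : Fin L, (X + C ((h' j : ℤ) : ZMod p) : (ZMod p)[X]).natDegree ≤
            ∑ _j : Fin L, 1 := Finset.sum_le_sum fun j _ => by compute_degree
        _ = L := by simp
    refine natDegree_mul_le.trans ?_
    have h4 := (natDegree_mul_le (p := (X : (ZMod p)[X]))
      (q := ∏ i : Fin K, (C ((n + h i : ℤ) : ZMod p) - C (2 * (d : ZMod p) ^ 2) * X ^ 2)))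
    omega
  apply hF0
  apply Polynomial.eq_zero_of_natDegree_lt_card_of_eval_eq_zero (f := fun x : ZMod p => x)
  · intro a b hab
    exact hab
  · intro x
    obtain ⟨y, rfl⟩ : ∃ y : ℤ, (y : ZMod p) = x := ZMod.intCast_surjective x
    have h1 := hcon y
    rw [← ZMod.intCast_zmod_eq_zero_iff_dvd] at h1
    rw [hF]
    simp only [eval_mul, eval_X, eval_prod, eval_sub, eval_C, eval_pow, eval_add]
    unfold Q at h1
    simp only [mul_pow, ← mul_assoc] at h1
    push_cast at h1 ⊢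
    exact h1
  · rw [ZMod.card]
    omega

/-- the number of residues `t` mod `p` with `p ∣ Q d h h' n t` -/
def om (d : ℕ) (h : Fin K → ℕ) (h' : Fin L → ℕ) (n p : ℕ) : ℕ :=
  ((Finset.range p).filter (fun t : ℕ => (p : ℤ) ∣ Q d h h' (n : ℤ) (t : ℤ))).card

/-- the singular product -/
noncomputable def sing (d : ℕ) (h : Fin K → ℕ) (h' : Fin L → ℕ) (n : ℕ) : ℝ :=
  ∏ p ∈ (Finset.Icc 1 n).filter Nat.Prime, (1 - (om d h h' n p : ℝ) / p)

lemma om_le (d : ℕ) (h : Fin K → ℕ) (h' : Fin L → ℕ) (n p : ℕ) : om d h h' n p ≤ p := by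
  unfold om
  exact (Finset.card_filter_le _ _).trans (by rw [Finset.card_range])

lemma exists_of_lt (d : ℕ) (h : Fin K → ℕ) (h' : Fin L → ℕ) (n p : ℕ) (hlt : om d h h' n p < p) :
    ∃ x : ℤ, ¬ (p : ℤ) ∣ Q d h h' n x := by
  by_contra hcon
  push Not at hcon
  unfold om at hlt
  have e : (Finset.range p).filter (fun t : ℕ => (p : ℤ) ∣ Q d h h' (n : ℤ) (t : ℤ)) =
      Finset.range p := Finset.filter_true_of_mem (fun t _ => hcon (t : ℤ))
  rw [e, Finset.card_range] at hlt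
  exact lt_irrefl _ hlt

lemma Q_congr (d : ℕ) (h : Fin K → ℕ) (h' : Fin L → ℕ) {n n' : ℤ} {p : ℤ} (hn : p ∣ n - n') (x : ℤ)
    (hd : p ∣ Q d h h' n x) : p ∣ Q d h h' n' x := by
  have h1 : n ≡ n' [ZMOD p] := (Int.modEq_iff_dvd.2 (by
    have := (dvd_neg.2 hn)
    rwa [neg_sub] at this))
  have h2 : Q d h h' n x ≡ Q d h h' n' x [ZMOD p] := by
    unfold Q
    refine Int.ModEq.mul (Int.ModEq.mul rfl ?_) rfl
    exact Int.ModEq.prod (fun i _ => Int.ModEq.sub_right _ (Int.ModEq.add_right _ h1))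
  have h3 : Q d h h' n' x % p = Q d h h' n x % p := h2.symm
  rw [Int.emod_eq_zero_of_dvd hd] at h3
  exact Int.dvd_of_emod_eq_zero h3

/-- the quadratic form with the constant `r` -/
noncomputable def qf (d M r : ℕ) : MvPolynomial (Fin 2) ℤ :=
  MvPolynomial.C (M : ℤ) * (MvPolynomial.X 0 + MvPolynomial.X 1) +
    Polynomial.aeval (MvPolynomial.X 0) (C (r : ℤ) - C (2 * (d : ℤ) ^ 2) * X ^ 2 : ℤ[X])

/-- the linear form -/
noncomputable def lf (c : ℕ) : MvPolynomial (Fin 2) ℤ := MvPolynomial.X 0 + MvPolynomial.C (c : ℤ)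

/-- the family -/
noncomputable def fam (d M r : ℕ) (h : Fin K → ℕ) (h' : Fin L → ℕ) :
    Fin (K + L + 1) → MvPolynomial (Fin 2) ℤ :=
  Fin.cons (MvPolynomial.X 0)
    (Fin.append (fun i => qf d M (r + h i)) (fun j => lf (h' j)))

lemma lr_qf (d M r n : ℕ) : lineRestrict (qf d M r) n =
    C ((M * n + r : ℕ) : ℤ) - C (2 * (d : ℤ) ^ 2) * X ^ 2 := by
  unfold Pool.Agent.Lib.MP_0da313_nt.lineRestrict qf
  simp only [map_add, map_mul, map_sub, map_pow, MvPolynomial.aeval_X,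
    Matrix.cons_val_zero, Matrix.cons_val_one, MvPolynomial.algHom_C, algebraMap_eq,
    Polynomial.aeval_C, Polynomial.aeval_X]
  simp
  ring

lemma lr_X (n : ℕ) : lineRestrict (MvPolynomial.X 0) n = X := by
  unfold Pool.Agent.Lib.MP_0da313_nt.lineRestrict
  simp

lemma lr_lf (c n : ℕ) : lineRestrict (lf c) n = X + C (c : ℤ) := by
  unfold Pool.Agent.Lib.MP_0da313_nt.lineRestrict lf
  simp

lemma ev_X (n : ℕ) (x : ℤ) : val (MvPolynomial.X 0) x ((n : ℤ) - x) = x := by
  rw [← eval_lineRestrict, lr_X, eval_X]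

lemma ev_qf (d M r n : ℕ) (x : ℤ) :
    val (qf d M r) x ((n : ℤ) - x) = ((M * n + r : ℕ) : ℤ) - 2 * (d * x) ^ 2 := by
  rw [← eval_lineRestrict, lr_qf]
  simp only [eval_sub, eval_C, eval_mul, eval_pow, eval_X]
  ring

lemma ev_lf (c n : ℕ) (x : ℤ) : val (lf c) x ((n : ℤ) - x) = x + c := by
  rw [← eval_lineRestrict, lr_lf]
  simp only [eval_add, eval_C, eval_X]

lemma prod_val (d : ℕ) (M r : ℕ) (h : Fin K → ℕ) (h' : Fin L → ℕ) (n : ℕ) (x : ℤ) :
    ∏ k, val (fam d M r h h' k) x ((n : ℤ) - x) = Q d h h' ((M * n + r : ℕ) : ℤ) x := by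
  unfold fam Q
  rw [Fin.prod_univ_succ, Fin.prod_univ_add]
  simp only [Fin.cons_zero, Fin.cons_succ, Fin.append_left, Fin.append_right]
  rw [ev_X]
  simp only [ev_qf, ev_lf]
  rw [← mul_assoc]
  congr 2
  refine Finset.prod_congr rfl fun i _ => ?_
  push_cast
  ring

/-- a property of all members -/
lemma fam_all (P : MvPolynomial (Fin 2) ℤ → Prop) (d M r : ℕ) (h : Fin K → ℕ) (h' : Fin L → ℕ)
    (h0 : P (MvPolynomial.X 0)) (h2 : ∀ i, P (qf d M (r + h i)))
    (h3 : ∀ j, P (lf (h' j))) (k : Fin (K + L + 1)) : P (fam d M r h h' k) := by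
  unfold fam
  refine Fin.cases ?_ (fun k => ?_) k
  · rw [Fin.cons_zero]
    exact h0
  · rw [Fin.cons_succ]
    refine Fin.addCases (fun i => ?_) (fun j => ?_) k
    · rw [Fin.append_left]
      exact h2 i
    · rw [Fin.append_right]
      exact h3 j

/-- `c - 2 d ^ 2 X^2` with `c` prime to `2 d` is irreducible over the integers -/
lemma irr_quad (d : ℕ) (hd : 1 ≤ d) (c : ℤ) (hc : IsCoprime c (2 * (d : ℤ))) :
    Irreducible (C c - C (2 * (d : ℤ) ^ 2) * X ^ 2 : ℤ[X]) := by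
  have hd0 : (2 * (d : ℤ) ^ 2) ≠ 0 := by positivity
  have hc2 : IsCoprime c (2 * (d : ℤ) ^ 2) := by
    have h1 : IsCoprime c 2 := IsCoprime.of_mul_right_left hc
    have h2 : IsCoprime c (d : ℤ) := IsCoprime.of_mul_right_right hc
    exact IsCoprime.mul_right h1 h2.pow_right
  have hodd : ¬ (2 : ℤ) ∣ c := by
    intro h2
    have h1 : IsCoprime c 2 := IsCoprime.of_mul_right_left hc
    have := h1.isUnit_of_dvd' h2 dvd_rfl
    rw [Int.isUnit_iff] at this
    omega
  have hdeg : (C c - C (2 * (d : ℤ) ^ 2) * X ^ 2 : ℤ[X]).natDegree = 2 := by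
    apply le_antisymm
    · compute_degree
    · apply le_natDegree_of_ne_zero
      simp only [coeff_sub, coeff_C_mul, coeff_X_pow, coeff_C]
      rw [if_neg (by norm_num), if_pos trivial, mul_one, zero_sub]
      exact neg_ne_zero.2 hd0
  have key : ∀ f g : ℤ[X], (C c - C (2 * (d : ℤ) ^ 2) * X ^ 2 : ℤ[X]) = f * g →
      f.natDegree = 0 → IsUnit f := by
    intro f g hfg hf
    rw [eq_C_of_natDegree_eq_zero hf] at hfg ⊢
    have h0 : f.coeff 0 ∣ c := by
      have h1 := congrArg (fun q : ℤ[X] => q.coeff 0) hfg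
      simp only [coeff_sub, coeff_C_mul, coeff_X_pow, coeff_C_zero] at h1
      norm_num at h1
      exact ⟨_, h1⟩
    have h2 : f.coeff 0 ∣ 2 * (d : ℤ) ^ 2 := by
      have h1 := congrArg (fun q : ℤ[X] => q.coeff 2) hfg
      simp only [coeff_sub, coeff_C_mul, coeff_X_pow, coeff_C] at h1
      rw [if_neg (by norm_num), if_pos trivial, mul_one, zero_sub] at h1
      exact ⟨-(g.coeff 2), by linarith⟩
    exact (hc2.isUnit_of_dvd' h0 h2).map C
  refine ⟨fun hu => ?_, fun {f g} hfg => ?_⟩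
  · have := natDegree_eq_zero_of_isUnit hu
    omega
  · have hne : (C c - C (2 * (d : ℤ) ^ 2) * X ^ 2 : ℤ[X]) ≠ 0 := fun h0 => by
      rw [h0, natDegree_zero] at hdeg
      omega
    have hf0 : f ≠ 0 := fun h => hne (by rw [hfg, h, zero_mul])
    have hg0 : g ≠ 0 := fun h => hne (by rw [hfg, h, mul_zero])
    have hd : f.natDegree + g.natDegree = 2 := by
      rw [← natDegree_mul hf0 hg0, ← hfg, hdeg]
    by_cases h1 : f.natDegree = 0
    · exact Or.inl (key f g hfg h1)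
    · by_cases h2 : g.natDegree = 0
      · exact Or.inr (key g f (by rw [hfg, mul_comm]) h2)
      · exfalso
        have e1 : f.natDegree = 1 := by omega
        have e2 : g.natDegree = 1 := by omega
        have f1 : f = C (f.coeff 1) * X + C (f.coeff 0) := eq_X_add_C_of_natDegree_le_one e1.le
        have g1 : g = C (g.coeff 1) * X + C (g.coeff 0) := eq_X_add_C_of_natDegree_le_one e2.le
        have c0 := congrArg (fun q : ℤ[X] => q.eval 0) hfg
        have c1 := congrArg (fun q : ℤ[X] => q.eval 1) hfg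
        have c2 := congrArg (fun q : ℤ[X] => q.eval (-1)) hfg
        rw [f1, g1] at c0 c1 c2
        simp only [eval_sub, eval_C, eval_mul, eval_pow, eval_X, eval_add] at c0 c1 c2
        generalize f.coeff 1 = a at c0 c1 c2
        generalize f.coeff 0 = b at c0 c1 c2
        generalize g.coeff 1 = a' at c0 c1 c2
        generalize g.coeff 0 = b' at c0 c1 c2
        have d1 : a * a' = -(2 * (d : ℤ) ^ 2) := by linarith
        have d2 : b * b' = c := by linarith
        have d3 : a * b' + b * a' = 0 := by linarith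
        have d4 : a ^ 2 * c = 2 * ((d : ℤ) * b) ^ 2 := by
          linear_combination (-(a ^ 2)) * d2 + (a * b) * d3 - b ^ 2 * d1
        have ha : a ≠ 0 := by
          rintro rfl
          rw [zero_mul] at d1
          exact hd0 (by linarith)
        have hc0 : c ≠ 0 := fun h => hodd (by rw [h]; exact dvd_zero 2)
        have hb : b ≠ 0 := by
          rintro rfl
          rw [zero_mul] at d2
          exact hc0 d2.symm
        have d5 : a.natAbs ^ 2 * c.natAbs = 2 * (d * b.natAbs) ^ 2 := by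
          have := congrArg Int.natAbs d4
          simpa [Int.natAbs_mul, Int.natAbs_pow] using this
        have d6 := congrArg (padicValNat 2) d5
        have ha' : a.natAbs ≠ 0 := Int.natAbs_ne_zero.2 ha
        have hc' : c.natAbs ≠ 0 := Int.natAbs_ne_zero.2 hc0
        have hb' : d * b.natAbs ≠ 0 := Nat.mul_ne_zero (by omega) (Int.natAbs_ne_zero.2 hb)
        have hcodd : padicValNat 2 c.natAbs = 0 := padicValNat.eq_zero_of_not_dvd (fun h => hodd (by
          exact Int.natCast_dvd.2 h))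
        rw [padicValNat.mul (pow_ne_zero 2 ha') hc', padicValNat.pow,
          padicValNat.mul (by norm_num) (pow_ne_zero 2 hb'), padicValNat.pow, hcodd,
          padicValNat.self (by norm_num)] at d6
        omega

lemma adm {d : ℕ} (hd1 : 1 ≤ d) (M r : ℕ) (h : Fin K → ℕ) (h' : Fin L → ℕ)
    (hM : ∀ p : ℕ, p.Prime → p ≤ 2 * K + L + 1 + d → p ∣ M)
    (hr : ∀ p : ℕ, p.Prime → p ≤ 2 * K + L + 1 + d → ∃ x : ℤ, ¬ (p : ℤ) ∣ Q d h h' r x) :
    Admissible (fam d M r h h') := by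
  -- for `p ∣ 2 d` the constants are prime to `p`
  have hcop : ∀ p : ℕ, p.Prime → p ∣ 2 * d → ∀ i, ¬ p ∣ r + h i := by
    intro p hp hpd
    have hple : p ≤ 2 * K + L + 1 + d := by
      rcases (hp.dvd_mul).1 hpd with h2 | h2
      · have := Nat.le_of_dvd (by norm_num) h2
        omega
      · have := Nat.le_of_dvd (by omega) h2
        omega
    obtain ⟨x, hx⟩ := hr p hp hple
    have hz : (p : ℤ) ∣ 2 * ((d : ℤ) * x) ^ 2 := by
      have h1 : (p : ℤ) ∣ 2 * (d : ℤ) := by exact_mod_cast hpd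
      have h2 : 2 * ((d : ℤ) * x) ^ 2 = 2 * (d : ℤ) * (d * x ^ 2) := by ring
      rw [h2]
      exact h1.mul_right _
    intro i hpr
    apply hx
    have h1 : (p : ℤ) ∣ (r : ℤ) + h i - 2 * ((d : ℤ) * x) ^ 2 := by
      apply dvd_sub _ hz
      exact_mod_cast hpr
    unfold Q
    exact ((h1.trans (Finset.dvd_prod_of_mem
      (fun i : Fin K => (r : ℤ) + h i - 2 * ((d : ℤ) * x) ^ 2)
      (Finset.mem_univ i))).mul_left _).mul_right _
  have hirr : ∀ s : ℕ, (∀ p : ℕ, p.Prime → p ∣ 2 * d → ¬ p ∣ s) → ∀ n : ℕ,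
      Irreducible (lineRestrict (qf d M s) n) := by
    intro s hs n
    rw [lr_qf]
    apply irr_quad d hd1
    have h1 : Nat.Coprime (M * n + s) (2 * d) := by
      apply Nat.coprime_of_dvd
      intro p hp h1 h2
      apply hs p hp h2
      have hple : p ≤ 2 * K + L + 1 + d := by
        rcases (hp.dvd_mul).1 h2 with h2 | h2
        · have := Nat.le_of_dvd (by norm_num) h2
          omega
        · have := Nat.le_of_dvd (by omega) h2
          omega
      exact (Nat.dvd_add_right ((hM p hp hple).mul_right n)).1 h1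
    have h2 := Nat.isCoprime_iff_coprime.2 h1
    push_cast at h2 ⊢
    exact h2
  refine ⟨0, fun n _ => ⟨?_, fun p hp hall => ?_⟩⟩
  · apply fam_all (fun f => Irreducible (lineRestrict f n))
    · rw [lr_X]
      exact irreducible_X
    · exact fun i => hirr (r + h i) (fun p hp hpd => hcop p hp hpd i) n
    · intro j
      rw [lr_lf]
      have : (X + C (h' j : ℤ) : ℤ[X]) = X - C (-(h' j : ℤ)) := by simp
      rw [this]
      exact irreducible_X_sub_C _
  · have h3 : ∀ y : ℤ, (p : ℤ) ∣ Q d h h' ((M * n + r : ℕ) : ℤ) y := by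
      intro y
      have h4 := hall y
      have h5 : ∏ k, (lineRestrict (fam d M r h h' k) n).eval y =
          Q d h h' ((M * n + r : ℕ) : ℤ) y := by
        rw [← prod_val]
        exact Finset.prod_congr rfl fun k _ => eval_lineRestrict _ _ _
      rwa [h5] at h4
    by_cases hpD : p ≤ 2 * K + L + 1 + d
    · obtain ⟨y, hy⟩ := hr p hp hpD
      apply hy
      refine Q_congr d h h' ?_ y (h3 y)
      have : ((M * n + r : ℕ) : ℤ) - r = (M : ℤ) * n := by push_cast; ring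
      rw [this]
      exact (Int.natCast_dvd_natCast.2 (hM p hp hpD)).mul_right _
    · obtain ⟨y, hy⟩ := big_ok hd1 h h' ((M * n + r : ℕ) : ℤ) p hp (by omega)
      exact hy (h3 y)

lemma deg_qf (d M r : ℕ) : (qf d M r).totalDegree ≤ 2 := by
  have hX : ∀ i : Fin 2, (MvPolynomial.X i : MvPolynomial (Fin 2) ℤ).totalDegree ≤ 1 := fun i => by
    rw [MvPolynomial.totalDegree_X]
  unfold qf
  simp only [map_sub, map_mul, map_pow, Polynomial.aeval_C, Polynomial.aeval_X]
  refine (MvPolynomial.totalDegree_add _ _).trans (max_le ?_ ?_)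
  · refine (MvPolynomial.totalDegree_mul _ _).trans ?_
    rw [MvPolynomial.totalDegree_C, zero_add]
    exact ((MvPolynomial.totalDegree_add _ _).trans (max_le (hX 0) (hX 1))).trans (by norm_num)
  · refine (MvPolynomial.totalDegree_sub _ _).trans (max_le ?_ ?_)
    · rw [MvPolynomial.algebraMap_eq, MvPolynomial.totalDegree_C]
      exact Nat.zero_le _
    · refine (MvPolynomial.totalDegree_mul _ _).trans ?_
      rw [MvPolynomial.algebraMap_eq, ← MvPolynomial.C_pow, ← MvPolynomial.C_mul,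
        MvPolynomial.totalDegree_C, zero_add]
      refine (MvPolynomial.totalDegree_pow _ _).trans ?_
      have := hX 0
      omega

lemma qf_ne (d M r1 r2 : ℕ) (hne : r1 ≠ r2) :
    qf d M r1 ≠ qf d M r2 ∧ qf d M r1 ≠ - qf d M r2 := by
  have h1 := ev_qf d M r1 0 0
  have h2 := ev_qf d M r2 0 0
  have e0 : ((d : ℤ) * 0) ^ 2 = 0 := by ring
  rw [e0] at h1 h2
  constructor
  · intro he
    rw [he, h2] at h1
    push_cast at h1
    omega
  · intro he
    have h3 : val (- qf d M r2) 0 (((0 : ℕ) : ℤ) - 0) = - val (qf d M r2) 0 (((0 : ℕ) : ℤ) - 0) := by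
      unfold Pool.Agent.Lib.MP_0da313_nt.val
      rw [map_neg]
    rw [he, h3, h2] at h1
    push_cast at h1
    omega

lemma deg_fam (d M r : ℕ) (h : Fin K → ℕ) (h' : Fin L → ℕ) (k : Fin (K + L + 1)) :
    (fam d M r h h' k).totalDegree ≤ 2 := by
  apply fam_all (fun f => f.totalDegree ≤ 2)
  · rw [MvPolynomial.totalDegree_X]
    norm_num
  · exact fun i => deg_qf _ _ _
  · intro j
    unfold lf
    refine (MvPolynomial.totalDegree_add _ _).trans (max_le ?_ ?_)
    · rw [MvPolynomial.totalDegree_X]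
      norm_num
    · rw [MvPolynomial.totalDegree_C]
      norm_num

lemma nroots_eq (d : ℕ) (M r : ℕ) (h : Fin K → ℕ) (h' : Fin L → ℕ) (n p : ℕ) :
    nroots (fam d M r h h') n p = om d h h' (M * n + r) p := by
  unfold Pool.Agent.Lib.MP_0da313_nt.nroots om
  congr 1
  apply Finset.filter_congr
  intro t _
  rw [prod_val]

lemma fac_mem (d : ℕ) (h : Fin K → ℕ) (h' : Fin L → ℕ) (n p : ℕ) (hp : p.Prime) :
    0 ≤ 1 - (om d h h' n p : ℝ) / p ∧ 1 - (om d h h' n p : ℝ) / p ≤ 1 := by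
  have h0 : (0 : ℝ) < p := by exact_mod_cast hp.pos
  have h1 : (om d h h' n p : ℝ) ≤ p := by exact_mod_cast om_le d h h' _ p
  have h2 : (om d h h' n p : ℝ) / p ≤ 1 := (div_le_one h0).2 h1
  have h3 : 0 ≤ (om d h h' n p : ℝ) / p := by positivity
  constructor <;> linarith

lemma sing_nonneg (d : ℕ) (h : Fin K → ℕ) (h' : Fin L → ℕ) (n : ℕ) : 0 ≤ sing d h h' n :=
  Finset.prod_nonneg fun p hp => (fac_mem d h h' n p (Finset.mem_filter.1 hp).2).1

lemma sing_le (d M r : ℕ) (hM : 1 ≤ M) (h : Fin K → ℕ) (h' : Fin L → ℕ) (n : ℕ) :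
    sing d h h' (M * n + r) ≤ singV (fam d M r h h') n := by
  unfold sing Pool.Agent.Lib.MP_0da313_nt.singV
  have hsub : (Finset.Icc 1 n).filter Nat.Prime ⊆ (Finset.Icc 1 (M * n + r)).filter Nat.Prime := by
    intro p hp
    rw [Finset.mem_filter, Finset.mem_Icc] at hp ⊢
    exact ⟨⟨hp.1.1, by nlinarith [hp.1.2]⟩, hp.2⟩
  rw [← Finset.prod_sdiff hsub]
  have h1 : ∏ p ∈ (Finset.Icc 1 n).filter Nat.Prime, (1 - (nroots (fam d M r h h') n p : ℝ) / p) =
      ∏ p ∈ (Finset.Icc 1 n).filter Nat.Prime, (1 - (om d h h' (M * n + r) p : ℝ) / p) :=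
    Finset.prod_congr rfl fun p _ => by rw [nroots_eq]
  rw [h1]
  apply mul_le_of_le_one_left
  · exact Finset.prod_nonneg fun p hp => (fac_mem d h h' _ p (Finset.mem_filter.1 hp).2).1
  · apply Finset.prod_le_one
    · intro p hp
      exact (fac_mem d h h' _ p (Finset.mem_filter.1 (Finset.mem_sdiff.1 hp).1).2).1
    · intro p hp
      exact (fac_mem d h h' _ p (Finset.mem_filter.1 (Finset.mem_sdiff.1 hp).1).2).2

lemma sing_lb (hsv : ∀ k : ℕ, ∃ c : ℝ, 0 < c ∧ ∀ n : ℕ, 2 ≤ n → ∀ w : ℕ → ℕ,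
    (∀ p : ℕ, p.Prime → w p ≤ k ∧ w p < p) →
    c / (Real.log n) ^ k ≤ ∏ p ∈ (Icc 1 n).filter Nat.Prime, (1 - (w p : ℝ) / p)) (K L : ℕ) :
    ∃ c : ℝ, 0 < c ∧ ∀ (d : ℕ) (h : Fin K → ℕ) (h' : Fin L → ℕ) (n : ℕ), 2 ≤ n →
      (∀ p : ℕ, p.Prime → om d h h' n p < p) →
      c / (Real.log n) ^ (2 * K + L + 1) ≤ sing d h h' n := by
  obtain ⟨c, hc, H⟩ := hsv (2 * K + L + 1)
  refine ⟨c, hc, fun d h h' n hn hloc => H n hn (fun p => om d h h' n p) (fun p hp => ?_)⟩
  obtain ⟨x, hx⟩ := exists_of_lt d h h' n p (hloc p hp)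
  have hno : ¬ ∀ x : ℤ, (p : ℤ) ∣ (G d h h' n).eval x := by
    intro hall
    apply hx
    rw [← ev_G]
    exact hall x
  have he : om d h h' n p = ((range p).filter (fun r : ℕ => (p : ℤ) ∣ (G d h h' n).eval (r : ℤ))).card := by
    unfold om
    congr 1
    apply Finset.filter_congr
    intro t _
    rw [ev_G]
  refine ⟨?_, hloc p hp⟩
  show om d h h' n p ≤ _
  rw [he]
  exact card_roots_mod_le (G d h h' n) p _ hp (deg_G d h h' n) hno

lemma om_lt (d : ℕ) (h : Fin K → ℕ) (h' : Fin L → ℕ) (n p : ℕ) (hp : p.Prime)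
    (hx : ∃ x : ℤ, ¬ (p : ℤ) ∣ Q d h h' n x) : om d h h' n p < p := by
  obtain ⟨x, hx⟩ := hx
  have hp0 : (0 : ℤ) < p := by exact_mod_cast hp.pos
  have hne : (p : ℤ) ≠ 0 := hp0.ne'
  obtain ⟨t, ht⟩ : ∃ t : ℕ, (t : ℤ) = x % p :=
    ⟨(x % p).toNat, Int.toNat_of_nonneg (Int.emod_nonneg _ hne)⟩
  have htp : t < p := by
    have := Int.emod_lt_of_pos x hp0
    rw [← ht] at this
    exact_mod_cast this
  have hnot : ¬ (p : ℤ) ∣ Q d h h' (n : ℤ) (t : ℤ) := by
    intro hd
    apply hx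
    rw [← ev_G] at hd ⊢
    have h1 : (p : ℤ) ∣ x - t := by
      rw [ht]
      exact Int.dvd_self_sub_emod
    have h2 := (h1.trans (Polynomial.sub_dvd_eval_sub x (t : ℤ) (G d h h' n)))
    have h3 := dvd_add h2 hd
    rwa [sub_add_cancel] at h3
  unfold om
  calc ((Finset.range p).filter (fun t : ℕ => (p : ℤ) ∣ Q d h h' (n : ℤ) (t : ℤ))).card <
      (Finset.range p).card := by
        apply Finset.card_lt_card
        rw [Finset.filter_ssubset]
        exact ⟨t, Finset.mem_range.2 htp, hnot⟩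
    _ = p := Finset.card_range p

end Pool.Agent.Lib.MP_6b8fc7_nt.CE
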